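import Mathlib

/-!
# `L_{ω₁,ω}`, complete sentences, (homogeneously) characterizable cardinals
-/

set_option autoImplicit false

open Cardinal FirstOrder FirstOrder.Language

namespace InfLogic

/-- the formulas of `L_{ω₁,ω}` with free variables `x_0, …, x_{n-1}` -/
inductive Fm (L : FirstOrder.Language.{0, 0}) : ℕ → Type
  | eq {n : ℕ} (t s : L.Term (Fin n)) : Fm L n
  | rel {n l : ℕ} (R : L.Relations l) (t : Fin l → L.Term (Fin n)) : Fm L n
  | neg {n : ℕ} (φ : Fm L n) : Fm L n
  | conj {n : ℕ} (φ : ℕ → Fm L n) : Fm L n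
  | all {n : ℕ} (φ : Fm L (n + 1)) : Fm L n

/-- satisfaction: `v i` is the value of `x_i` -/
def Holds {L : FirstOrder.Language.{0, 0}} (A : Type) [L.Structure A] {n : ℕ} (φ : Fm L n) :
    (Fin n → A) → Prop :=
  Fm.rec (motive := fun n _ => (Fin n → A) → Prop)
    (fun t s v => t.realize v = s.realize v)
    (fun R t v => Structure.RelMap R (fun i => (t i).realize v))
    (fun _ p v => ¬ p v)
    (fun _ p v => ∀ i, p i v)
    (fun _ p v => ∀ a : A, p (Fin.snoc v a)) φ

/-- `A ⊨ φ` for a sentence `φ` -/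
def Models {L : FirstOrder.Language.{0, 0}} (A : Type) [L.Structure A] (φ : Fm L 0) : Prop :=
  Holds A φ Fin.elim0

/-- complete sentences: `φ` has a model, and `φ ⊨ ψ` or `φ ⊨ ¬ψ` for every sentence `ψ` -/
def Complete {L : FirstOrder.Language.{0, 0}} (φ : Fm L 0) : Prop :=
  (∃ (A : Type) (_ : L.Structure A), Nonempty A ∧ Models A φ) ∧ ∀ ψ : Fm L 0,
    (∀ (A : Type) [L.Structure A] [Nonempty A], Models A φ → Models A ψ) ∨
    (∀ (A : Type) [L.Structure A] [Nonempty A], Models A φ → ¬ Models A ψ)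

/-- the characterizable cardinals -/
def Ch (κ : Cardinal.{0}) : Prop :=
  ℵ₀ ≤ κ ∧ ∃ (L : FirstOrder.Language.{0, 0}) (φ : Fm L 0), L.card ≤ ℵ₀ ∧ Complete φ ∧
    (∀ μ, ℵ₀ ≤ μ → μ ≤ κ → ∃ (A : Type) (_ : L.Structure A), #A = μ ∧ Models A φ) ∧
    ∀ (A : Type) [L.Structure A], Models A φ → #A ≠ Order.succ κ

/-- the unary predicate `P` is completely homogeneous for the structure `A` -/
def CompletelyHomogeneous {L : FirstOrder.Language.{0, 0}} (A : Type) [L.Structure A]
    (P : L.Relations 1) : Prop :=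
  Set.Infinite {x : A | Structure.RelMap P ![x]} ∧
    ∀ σ : Equiv.Perm {x : A // Structure.RelMap P ![x]},
      ∃ e : L.Equiv A A, ∀ x : {x : A // Structure.RelMap P ![x]}, e x.1 = (σ x).1

/-- the homogeneously characterizable cardinals: `φ` has no model larger than `κ`, `P` is
completely homogeneous for the countable model of `φ`, and `|P^A| = κ` for some model `A` -/
def HomCh (κ : Cardinal.{0}) : Prop :=
  ∃ (L : FirstOrder.Language.{0, 0}) (φ : Fm L 0) (P : L.Relations 1), L.card ≤ ℵ₀ ∧ Complete φ ∧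
    (∀ (A : Type) [L.Structure A], Models A φ → #A ≤ κ) ∧
    (∃ (M : Type) (_ : L.Structure M), Countable M ∧ Models M φ) ∧
    (∀ (M : Type) [L.Structure M], Countable M → Models M φ → CompletelyHomogeneous M P) ∧
    ∃ (A : Type) (_ : L.Structure A), Models A φ ∧ #{a : A // Structure.RelMap P ![a]} = κ

end InfLogic
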