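import Mathlib
import Pool.Agent.H94.HI.Defs

/-!
# Definable conditions
-/

set_option autoImplicit false
set_option linter.unusedSectionVars false

namespace InfLogic

open Cardinal FirstOrder FirstOrder.Language

section

variable {L : FirstOrder.Language.{0, 0}} {n : ℕ}

theorem holds_eq {A : Type} [L.Structure A] (t s : L.Term (Fin n)) (v : Fin n → A) :
    Holds A (Fm.eq t s) v ↔ t.realize v = s.realize v := Iff.rfl

theorem holds_rel {A : Type} [L.Structure A] {l : ℕ} (R : L.Relations l)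
    (t : Fin l → L.Term (Fin n)) (v : Fin n → A) :
    Holds A (Fm.rel R t) v ↔ Structure.RelMap R (fun i => (t i).realize v) := Iff.rfl

theorem holds_neg {A : Type} [L.Structure A] (φ : Fm L n) (v : Fin n → A) :
    Holds A (Fm.neg φ) v ↔ ¬ Holds A φ v := Iff.rfl

theorem holds_conj {A : Type} [L.Structure A] (φ : ℕ → Fm L n) (v : Fin n → A) :
    Holds A (Fm.conj φ) v ↔ ∀ i, Holds A (φ i) v := Iff.rfl

theorem holds_all {A : Type} [L.Structure A] (φ : Fm L (n + 1)) (v : Fin n → A) :
    Holds A (Fm.all φ) v ↔ ∀ a : A, Holds A φ (Fin.snoc v a) := Iff.rfl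

/-- conditions on tuples of structures -/
abbrev Cond (L : FirstOrder.Language.{0, 0}) (n : ℕ) : Type 1 :=
  ∀ (A : Type) [L.Structure A], (Fin n → A) → Prop

/-- definable by a formula -/
def Dfn (P : Cond L n) : Prop :=
  ∃ φ : Fm L n, ∀ (A : Type) [L.Structure A] (v : Fin n → A), Holds A φ v ↔ P A v

theorem Dfn.congr {P Q : Cond L n} (h : Dfn P)
    (h' : ∀ (A : Type) [L.Structure A] (v : Fin n → A), P A v ↔ Q A v) : Dfn Q := by
  obtain ⟨φ, hφ⟩ := h
  exact ⟨φ, fun A _ v => (hφ A v).trans (h' A v)⟩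

theorem Dfn.neg {P : Cond L n} (h : Dfn P) : Dfn (fun A _ v => ¬ P A v : Cond L n) := by
  obtain ⟨φ, hφ⟩ := h
  exact ⟨Fm.neg φ, fun A _ v => not_congr (hφ A v)⟩

theorem Dfn.all {P : Cond L (n + 1)} (h : Dfn P) :
    Dfn (fun A _ v => ∀ a : A, P A (Fin.snoc v a) : Cond L n) := by
  obtain ⟨φ, hφ⟩ := h
  exact ⟨Fm.all φ, fun A _ v => forall_congr' fun a => hφ A _⟩

theorem Dfn.conjN {P : ℕ → Cond L n} (h : ∀ i, Dfn (P i)) :
    Dfn (fun A _ v => ∀ i, P i A v : Cond L n) := by
  choose φ hφ using h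
  exact ⟨Fm.conj φ, fun A _ v => forall_congr' fun i => hφ i A v⟩

theorem Dfn.tru : Dfn (fun _ _ _ => True : Cond L n) := by
  refine ⟨Fm.all (Fm.eq (Term.var (Fin.last n)) (Term.var (Fin.last n))), fun A _ v => ?_⟩
  exact iff_of_true (fun a => rfl) trivial

theorem Dfn.conj {I : Type} [Countable I] {P : I → Cond L n} (h : ∀ i, Dfn (P i)) :
    Dfn (fun A _ v => ∀ i, P i A v : Cond L n) := by
  rcases isEmpty_or_nonempty I with hI | hI
  · exact Dfn.tru.congr fun A _ v => iff_of_true trivial fun i => isEmptyElim i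
  · obtain ⟨f, hf⟩ := exists_surjective_nat I
    exact (Dfn.conjN fun i => h (f i)).congr fun A _ v => by
      constructor
      · intro h i
        obtain ⟨j, rfl⟩ := hf i
        exact h j
      · intro h j
        exact h (f j)

theorem Dfn.and {P Q : Cond L n} (h : Dfn P) (h' : Dfn Q) :
    Dfn (fun A _ v => P A v ∧ Q A v : Cond L n) := by
  have h1 : ∀ b : Bool, Dfn (fun A _ v => cond b (P A v) (Q A v) : Cond L n) := by
    intro b
    cases b
    · exact h'
    · exact h
  exact (Dfn.conj h1).congr fun A _ v => by simp [and_comm]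

theorem Dfn.imp {P Q : Cond L n} (h : Dfn P) (h' : Dfn Q) :
    Dfn (fun A _ v => P A v → Q A v : Cond L n) :=
  (h.and h'.neg).neg.congr fun A _ v => by tauto

theorem Dfn.disj {I : Type} [Countable I] {P : I → Cond L n} (h : ∀ i, Dfn (P i)) :
    Dfn (fun A _ v => ∃ i, P i A v : Cond L n) :=
  (Dfn.conj fun i => (h i).neg).neg.congr fun A _ v => by push Not; rfl

theorem Dfn.ex {P : Cond L (n + 1)} (h : Dfn P) :
    Dfn (fun A _ v => ∃ a : A, P A (Fin.snoc v a) : Cond L n) :=
  (h.neg.all).neg.congr fun A _ v => by push Not; rfl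

theorem Dfn.eq (i j : Fin n) : Dfn (fun _ _ v => v i = v j : Cond L n) :=
  ⟨Fm.eq (Term.var i) (Term.var j), fun _ _ _ => Iff.rfl⟩

theorem Dfn.rel {l : ℕ} (R : L.Relations l) (s : Fin l → Fin n) :
    Dfn (fun _ _ v => Structure.RelMap R (v ∘ s) : Cond L n) :=
  ⟨Fm.rel R (fun i => Term.var (s i)), fun _ _ _ => Iff.rfl⟩

theorem Dfn.const (p : Prop) : Dfn (fun _ _ _ => p : Cond L n) := by
  by_cases hp : p
  · exact Dfn.tru.congr fun _ _ _ => iff_of_true trivial hp
  · exact Dfn.tru.neg.congr fun _ _ _ => iff_of_false (fun h => h trivial) hp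

/-- closing all variables -/
theorem Dfn.close : ∀ {n : ℕ} {P : Cond L n}, Dfn P →
    Dfn (fun A _ _ => ∀ v : Fin n → A, P A v : Cond L 0)
  | 0, P, h => h.congr fun A _ v => by
      constructor
      · intro h w
        rwa [Subsingleton.elim w v]
      · intro h
        exact h v
  | n + 1, P, h => (Dfn.close h.all).congr fun A _ v => by
      constructor
      · intro h w
        have h1 := h (Fin.init w) (w (Fin.last n))
        rwa [Fin.snoc_init_self] at h1
      · intro h w a
        exact h _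

end

end InfLogic
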