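import Mathlib
import Pool.Agent.H94.HC.Rel

/-!
# Tuples with the same back-and-forth type
-/

set_option autoImplicit false
set_option linter.unusedSectionVars false

namespace Pool.Agent.H94.HI

open FirstOrder FirstOrder.Language
open Pool.Agent.H94.HC

section

variable (L : FirstOrder.Language.{0, 0}) {M A B : Type} [L.Structure M] [L.Structure A]
  [L.Structure B]

/-- systems of partial isomorphisms -/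
structure Sy (𝒮 : Set (Set (M × A))) : Prop where
  iso : ∀ Γ ∈ 𝒮, PIso L Γ
  forth : ∀ Γ ∈ 𝒮, ∀ m : M, ∃ Γ' ∈ 𝒮, Γ ⊆ Γ' ∧ ∃ a, (m, a) ∈ Γ'
  back : ∀ Γ ∈ 𝒮, ∀ a : A, ∃ Γ' ∈ 𝒮, Γ ⊆ Γ' ∧ ∃ m, (m, a) ∈ Γ'

/-- `m` and `a` have the same back-and-forth type -/
def TY {n : ℕ} (m : Fin n → M) (a : Fin n → A) : Prop :=
  ∃ 𝒮 : Set (Set (M × A)), Sy L 𝒮 ∧ ∃ Γ ∈ 𝒮, ∀ i, (m i, a i) ∈ Γ

variable {L}

theorem TY.forth {n : ℕ} {m : Fin n → M} {a : Fin n → A} (h : TY L m a) (x : M) :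
    ∃ y : A, TY L (Fin.snoc m x : Fin (n + 1) → M) (Fin.snoc a y : Fin (n + 1) → A) := by
  obtain ⟨𝒮, hS, Γ, hΓ, hm⟩ := h
  obtain ⟨Γ', hΓ', hs, y, hy⟩ := hS.forth Γ hΓ x
  refine ⟨y, 𝒮, hS, Γ', hΓ', fun i => ?_⟩
  refine Fin.lastCases ?_ (fun i => ?_) i
  · simpa using hy
  · simpa using hs (hm i)

theorem TY.back {n : ℕ} {m : Fin n → M} {a : Fin n → A} (h : TY L m a) (y : A) :
    ∃ x : M, TY L (Fin.snoc m x : Fin (n + 1) → M) (Fin.snoc a y : Fin (n + 1) → A) := by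
  obtain ⟨𝒮, hS, Γ, hΓ, hm⟩ := h
  obtain ⟨Γ', hΓ', hs, x, hx⟩ := hS.back Γ hΓ y
  refine ⟨x, 𝒮, hS, Γ', hΓ', fun i => ?_⟩
  refine Fin.lastCases ?_ (fun i => ?_) i
  · simpa using hx
  · simpa using hs (hm i)

theorem TY.sub {n l : ℕ} {m : Fin n → M} {a : Fin n → A} (h : TY L m a) (s : Fin l → Fin n) :
    TY L (m ∘ s) (a ∘ s) := by
  obtain ⟨𝒮, hS, Γ, hΓ, hm⟩ := h
  exact ⟨𝒮, hS, Γ, hΓ, fun i => hm (s i)⟩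

theorem TY.eq_iff {n : ℕ} {m : Fin n → M} {a : Fin n → A} (h : TY L m a) (i j : Fin n) :
    m i = m j ↔ a i = a j := by
  obtain ⟨𝒮, hS, Γ, hΓ, hm⟩ := h
  exact (hS.iso Γ hΓ).inj _ (hm i) _ (hm j)

theorem TY.rel {n : ℕ} {m : Fin n → M} {a : Fin n → A} (h : TY L m a) (r : L.Relations n) :
    Structure.RelMap r m ↔ Structure.RelMap r a := by
  obtain ⟨𝒮, hS, Γ, hΓ, hm⟩ := h
  exact (hS.iso Γ hΓ).rel n r m a hm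

theorem TY.symm {n : ℕ} {m : Fin n → M} {a : Fin n → A} (h : TY L m a) : TY L a m := by
  obtain ⟨𝒮, hS, Γ, hΓ, hm⟩ := h
  refine ⟨{Δ | ∃ Γ ∈ 𝒮, Δ = Prod.swap ⁻¹' Γ}, ⟨?_, ?_, ?_⟩, _, ⟨Γ, hΓ, rfl⟩, hm⟩
  · rintro _ ⟨Γ, hΓ, rfl⟩
    refine ⟨fun x hx y hy => ((hS.iso Γ hΓ).inj _ hx _ hy).symm, fun n r x y hxy => ?_⟩
    exact ((hS.iso Γ hΓ).rel n r y x hxy).symm
  · rintro _ ⟨Γ, hΓ, rfl⟩ x
    obtain ⟨Γ', hΓ', hs, y, hy⟩ := hS.back Γ hΓ x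
    exact ⟨_, ⟨Γ', hΓ', rfl⟩, fun z hz => hs hz, y, hy⟩
  · rintro _ ⟨Γ, hΓ, rfl⟩ x
    obtain ⟨Γ', hΓ', hs, y, hy⟩ := hS.forth Γ hΓ x
    exact ⟨_, ⟨Γ', hΓ', rfl⟩, fun z hz => hs hz, y, hy⟩

/-- composition of relations -/
def cmp (Γ : Set (M × A)) (Δ : Set (A × B)) : Set (M × B) :=
  {z | ∃ a, (z.1, a) ∈ Γ ∧ (a, z.2) ∈ Δ}

theorem cmp_mono {Γ Γ' : Set (M × A)} {Δ Δ' : Set (A × B)} (h : Γ ⊆ Γ') (h' : Δ ⊆ Δ') :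
    cmp Γ Δ ⊆ cmp Γ' Δ' := by
  rintro z ⟨a, h1, h2⟩
  exact ⟨a, h h1, h' h2⟩

theorem TY.trans {n : ℕ} {m : Fin n → M} {a : Fin n → A} {b : Fin n → B} (h : TY L m a)
    (h' : TY L a b) : TY L m b := by
  obtain ⟨𝒮, hS, Γ, hΓ, hm⟩ := h
  obtain ⟨𝒯, hT, Δ, hΔ, ha⟩ := h'
  refine ⟨{Z | ∃ Γ ∈ 𝒮, ∃ Δ ∈ 𝒯, Z = cmp Γ Δ}, ⟨?_, ?_, ?_⟩, _, ⟨Γ, hΓ, Δ, hΔ, rfl⟩,
    fun i => ⟨a i, hm i, ha i⟩⟩
  · rintro _ ⟨Γ, hΓ, Δ, hΔ, rfl⟩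
    refine ⟨?_, ?_⟩
    · rintro x ⟨c, hx, hx'⟩ y ⟨e, hy, hy'⟩
      exact ((hS.iso Γ hΓ).inj _ hx _ hy).trans ((hT.iso Δ hΔ).inj _ hx' _ hy')
    · intro n r x y hxy
      choose c hc hc' using hxy
      exact ((hS.iso Γ hΓ).rel n r x c hc).trans ((hT.iso Δ hΔ).rel n r c y hc')
  · rintro _ ⟨Γ, hΓ, Δ, hΔ, rfl⟩ x
    obtain ⟨Γ', hΓ', hs, y, hy⟩ := hS.forth Γ hΓ x
    obtain ⟨Δ', hΔ', ht, z, hz⟩ := hT.forth Δ hΔ y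
    exact ⟨_, ⟨Γ', hΓ', Δ', hΔ', rfl⟩, cmp_mono hs ht, z, y, hy, hz⟩
  · rintro _ ⟨Γ, hΓ, Δ, hΔ, rfl⟩ z
    obtain ⟨Δ', hΔ', ht, y, hz⟩ := hT.back Δ hΔ z
    obtain ⟨Γ', hΓ', hs, x, hy⟩ := hS.back Γ hΓ y
    exact ⟨_, ⟨Γ', hΓ', Δ', hΔ', rfl⟩, cmp_mono hs ht, x, y, hy, hz⟩

/-- automorphisms preserve types -/
theorem TY.of_equiv (e : L.Equiv M A) {n : ℕ} (m : Fin n → M) : TY L m (fun i => e (m i)) := by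
  refine ⟨{{z : M × A | e z.1 = z.2}}, ⟨?_, ?_, ?_⟩, {z : M × A | e z.1 = z.2},
    Set.mem_singleton _, fun i => rfl⟩
  · rintro _ rfl
    refine ⟨?_, ?_⟩
    · rintro ⟨x, a⟩ hx ⟨y, b⟩ hy
      have hx' : e x = a := hx
      have hy' : e y = b := hy
      change x = y ↔ a = b
      rw [← hx', ← hy']
      exact e.injective.eq_iff.symm
    · intro n r x y hxy
      have h1 : y = e ∘ x := funext (fun i => (hxy i).symm)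
      rw [h1]
      exact (e.map_rel r x).symm
  · rintro _ rfl x
    exact ⟨_, rfl, le_rfl, e x, rfl⟩
  · rintro _ rfl y
    exact ⟨_, rfl, le_rfl, e.symm y, by simp⟩

theorem TY.refl {n : ℕ} (m : Fin n → M) : TY L m m :=
  TY.of_equiv (FirstOrder.Language.Equiv.refl L M) m

variable (L M) in
/-- types of tuples of `M` -/
def clsSetoid (n : ℕ) : Setoid (Fin n → M) where
  r := fun m m' => TY L m m'
  iseqv := ⟨fun m => TY.refl m, fun h => h.symm, fun h h' => h.trans h'⟩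

/-- a single type from the back-and-forth condition -/
theorem TY.of_bfc (h : BFc L M A) : TY L (Fin.elim0 : Fin 0 → M) (Fin.elim0 : Fin 0 → A) := by
  obtain ⟨S, ⟨f₀, hf₀⟩, -, hf, hb⟩ := h
  refine ⟨{Γ | ∃ f ∈ S, Γ = {z | ∃ hx : z.1 ∈ f.dom, (f.toEquiv ⟨z.1, hx⟩ : A) = z.2}},
    ⟨?_, ?_, ?_⟩, _, ⟨f₀, hf₀, rfl⟩, fun i => i.elim0⟩
  · rintro _ ⟨f, -, rfl⟩
    refine ⟨?_, ?_⟩
    · rintro ⟨x, a⟩ ⟨hx, hxa⟩ ⟨y, b⟩ ⟨hy, hyb⟩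
      change x = y ↔ a = b
      change (f.toEquiv ⟨x, hx⟩ : A) = a at hxa
      change (f.toEquiv ⟨y, hy⟩ : A) = b at hyb
      rw [← hxa, ← hyb, Subtype.coe_inj, f.toEquiv.injective.eq_iff, Subtype.mk.injEq]
    · intro n r x y hxy
      choose hx hy using hxy
      have h1 : y = fun i => ((f.toEquiv ⟨x i, hx i⟩ : f.cod) : A) := funext (fun i => (hy i).symm)
      rw [h1]
      exact (f.toEquiv.map_rel r (fun i => (⟨x i, hx i⟩ : f.dom))).symm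
  · rintro _ ⟨f, hfS, rfl⟩ m
    obtain ⟨g, hg, hle, hm⟩ := hf f hfS m
    refine ⟨_, ⟨g, hg, rfl⟩, ?_, (g.toEquiv ⟨m, hm⟩ : A), hm, rfl⟩
    rintro ⟨x, a⟩ ⟨hx, hxa⟩
    obtain ⟨h1, h2, h3⟩ := FirstOrder.Language.PartialEquiv.le_iff.1 hle
    refine ⟨h1 hx, ?_⟩
    rw [← hxa]
    exact (congrArg Subtype.val (h3 ⟨x, hx⟩)).symm
  · rintro _ ⟨f, hfS, rfl⟩ a
    obtain ⟨g, hg, hle, ha⟩ := hb f hfS a
    refine ⟨_, ⟨g, hg, rfl⟩, ?_, (g.toEquiv.symm ⟨a, ha⟩ : M), (g.toEquiv.symm ⟨a, ha⟩).2, ?_⟩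
    · rintro ⟨x, a⟩ ⟨hx, hxa⟩
      obtain ⟨h1, h2, h3⟩ := FirstOrder.Language.PartialEquiv.le_iff.1 hle
      refine ⟨h1 hx, ?_⟩
      rw [← hxa]
      exact (congrArg Subtype.val (h3 ⟨x, hx⟩)).symm
    · simp

end

end Pool.Agent.H94.HI
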