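import Mathlib
import Pool.Agent.H94.HI.Sys

/-!
# The language of types and its axioms
-/

set_option autoImplicit false
set_option linter.unusedSectionVars false
set_option linter.style.haveILetI false

namespace Pool.Agent.H94.HI

open FirstOrder FirstOrder.Language
open Pool.Agent.H94.HC

section

variable (L : FirstOrder.Language.{0, 0}) (M : Type) [L.Structure M]

/-- the language of types of tuples of `M` -/
def OL : FirstOrder.Language.{0, 0} := ⟨fun _ => Empty, fun n => Quotient (clsSetoid L M n)⟩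

instance : (OL L M).IsRelational := fun _ => inferInstanceAs (IsEmpty Empty)

variable {M}

/-- the type of a tuple -/
def cls {n : ℕ} (m : Fin n → M) : (OL L M).Relations n := Quotient.mk (clsSetoid L M n) m

variable {L}

theorem cls_eq {n : ℕ} {m m' : Fin n → M} : cls L m = cls L m' ↔ TY L m m' :=
  Quotient.eq (r := clsSetoid L M n)

theorem cls_surj {n : ℕ} (O : (OL L M).Relations n) : ∃ m : Fin n → M, cls L m = O :=
  Quotient.exists_rep (s := clsSetoid L M n) O

variable (L M)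

/-- the type structure of an `L`-structure -/
@[reducible] def oStr (A : Type) [L.Structure A] : (OL L M).Structure A where
  funMap := fun f => Empty.elim f
  RelMap := fun {_} O a => ∃ m, cls L m = O ∧ TY L m a

variable {M}

/-- `a` has the type of `m` -/
def Has {A : Type} [(OL L M).Structure A] {n : ℕ} (m : Fin n → M) (a : Fin n → A) : Prop :=
  Structure.RelMap (cls L m) a

variable {L}

theorem Has.congr {A : Type} [(OL L M).Structure A] {n : ℕ} {m m' : Fin n → M} {a : Fin n → A}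
    (h : Has L m a) (h' : TY L m m') : Has L m' a := by
  unfold Has at *
  rwa [← cls_eq.2 h']

variable (L M)

/-- the axioms of the types of `M` -/
structure Ax (A : Type) [(OL L M).Structure A] : Prop where
  ex : ∀ (n : ℕ) (a : Fin n → A), ∃ m : Fin n → M, Has L m a
  un : ∀ (n : ℕ) (m m' : Fin n → M) (a : Fin n → A), Has L m a → Has L m' a → TY L m m'
  eqv : ∀ (n : ℕ) (m : Fin n → M) (a : Fin n → A) (i j : Fin n), Has L m a → (m i = m j ↔ a i = a j)
  sub : ∀ (n l : ℕ) (m : Fin n → M) (a : Fin n → A) (s : Fin l → Fin n), Has L m a →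
    Has L (m ∘ s) (a ∘ s)
  fo : ∀ (n : ℕ) (m : Fin n → M) (a : Fin n → A) (x : M), Has L m a →
    ∃ y : A, Has L (Fin.snoc m x : Fin (n + 1) → M) (Fin.snoc a y : Fin (n + 1) → A)

variable {L M}

theorem snoc_comp_castSucc {T : Type} {n : ℕ} (a : Fin n → T) (y : T) :
    (Fin.snoc a y : Fin (n + 1) → T) ∘ Fin.castSucc = a := by
  funext i
  simp

theorem snoc_comp_self {T : Type} {n : ℕ} (a : Fin (n + 1) → T) :
    (Fin.snoc (a ∘ Fin.castSucc) (a (Fin.last n)) : Fin (n + 1) → T) = a := by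
  funext i
  refine Fin.lastCases ?_ (fun i => ?_) i
  · simp
  · simp

/-- extension on the other side -/
theorem Ax.ba {A : Type} [(OL L M).Structure A] (h : Ax L M A) {n : ℕ} {m : Fin n → M}
    {a : Fin n → A} (hm : Has L m a) (y : A) :
    ∃ x : M, Has L (Fin.snoc m x : Fin (n + 1) → M) (Fin.snoc a y : Fin (n + 1) → A) := by
  obtain ⟨m', hm'⟩ := h.ex (n + 1) (Fin.snoc a y : Fin (n + 1) → A)
  have h1 := h.sub (n + 1) n m' _ Fin.castSucc hm'
  rw [snoc_comp_castSucc] at h1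
  have h2 := h.un n _ _ a h1 hm
  obtain ⟨x, hx⟩ := h2.forth (m' (Fin.last n))
  rw [snoc_comp_self] at hx
  exact ⟨x, hm'.congr hx⟩

/-! ### `L`-structures with the back-and-forth condition -/

/-- the type structure of a back-and-forth equivalent structure satisfies the axioms -/
theorem ax_of_ty {A : Type} [L.Structure A]
    (h0 : TY L (Fin.elim0 : Fin 0 → M) (Fin.elim0 : Fin 0 → A)) :
    @Ax L M _ A (oStr L M A) := by
  letI : (OL L M).Structure A := oStr L M A
  have key : ∀ {n : ℕ} (m : Fin n → M) (a : Fin n → A), Has L m a ↔ TY L m a := by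
    intro n m a
    constructor
    · rintro ⟨m', h1, h2⟩
      exact (cls_eq.1 h1).symm.trans h2
    · intro h
      exact ⟨m, rfl, h⟩
  constructor
  · intro n
    induction n with
    | zero =>
      intro a
      refine ⟨Fin.elim0, (key _ _).2 ?_⟩
      rwa [Subsingleton.elim a Fin.elim0]
    | succ n ih =>
      intro a
      obtain ⟨m, hm⟩ := ih (a ∘ Fin.castSucc)
      obtain ⟨x, hx⟩ := ((key _ _).1 hm).back (a (Fin.last n))
      rw [snoc_comp_self] at hx
      exact ⟨_, (key _ _).2 hx⟩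
  · intro n m m' a h1 h2
    exact ((key _ _).1 h1).trans ((key _ _).1 h2).symm
  · intro n m a i j h1
    exact ((key _ _).1 h1).eq_iff i j
  · intro n l m a s h1
    exact (key _ _).2 (((key _ _).1 h1).sub s)
  · intro n m a x h1
    obtain ⟨y, hy⟩ := ((key _ _).1 h1).forth x
    exact ⟨y, (key _ _).2 hy⟩

theorem ax_of_bfc {A : Type} [L.Structure A] (h : BFc L M A) :
    @Ax L M _ A (oStr L M A) := ax_of_ty (TY.of_bfc h)

theorem ax_self : @Ax L M _ M (oStr L M M) := ax_of_ty (TY.refl _)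

theorem has_self {n : ℕ} (m : Fin n → M) : @Has L M _ M (oStr L M M) n m m :=
  ⟨m, rfl, TY.refl m⟩

/-- the `L`-structure of a type structure -/
@[reducible] def lStr (L : FirstOrder.Language.{0, 0}) [L.IsRelational] (M : Type) [L.Structure M]
    (A : Type) [(OL L M).Structure A] : L.Structure A where
  funMap := fun f => isEmptyElim f
  RelMap := fun {n} r a => ∃ m : Fin n → M, Has L m a ∧ Structure.RelMap r m

/-- graphs -/
def grf {A : Type} {n : ℕ} (m : Fin n → M) (a : Fin n → A) : Set (M × A) :=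
  Set.range fun i => (m i, a i)

theorem grf_sel {A : Type} {n l : ℕ} {m : Fin n → M} {a : Fin n → A} {x : Fin l → M}
    {y : Fin l → A} (h : ∀ i, (x i, y i) ∈ grf m a) : ∃ s : Fin l → Fin n, x = m ∘ s ∧ y = a ∘ s := by
  choose s hs using h
  refine ⟨s, funext fun i => ?_, funext fun i => ?_⟩
  · exact (congrArg Prod.fst (hs i)).symm
  · exact (congrArg Prod.snd (hs i)).symm

theorem grf_snoc {A : Type} {n : ℕ} (m : Fin n → M) (a : Fin n → A) (x : M) (y : A) :
    grf m a ⊆ grf (Fin.snoc m x : Fin (n + 1) → M) (Fin.snoc a y : Fin (n + 1) → A) := by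
  rintro _ ⟨i, rfl⟩
  exact ⟨i.castSucc, by simp⟩

theorem mem_grf_snoc {A : Type} {n : ℕ} (m : Fin n → M) (a : Fin n → A) (x : M) (y : A) :
    (x, y) ∈ grf (Fin.snoc m x : Fin (n + 1) → M) (Fin.snoc a y : Fin (n + 1) → A) :=
  ⟨Fin.last n, by simp⟩

theorem Ax.inj_grf {A : Type} [(OL L M).Structure A] (h : Ax L M A) {n : ℕ} {m : Fin n → M}
    {a : Fin n → A} (hm : Has L m a) : ∀ z ∈ grf m a, ∀ w ∈ grf m a, z.1 = w.1 ↔ z.2 = w.2 := by
  rintro _ ⟨i, rfl⟩ _ ⟨j, rfl⟩
  exact h.eqv n m a i j hm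

/-- models of the axioms are back-and-forth equivalent to `M` -/
theorem bfc_of_ax [L.IsRelational] {A : Type} [(OL L M).Structure A] (h : Ax L M A) :
    @BFc L M A _ (lStr L M A) := by
  letI : L.Structure A := lStr L M A
  refine bfc_of_system {Γ | ∃ (n : ℕ) (m : Fin n → M) (a : Fin n → A), Has L m a ∧ Γ = grf m a}
    ?_ ?_ ?_ ?_ ?_
  · obtain ⟨m, hm⟩ := h.ex 0 Fin.elim0
    exact ⟨_, 0, m, _, hm, rfl⟩
  · rintro _ ⟨n, m, a, hm, rfl⟩
    refine ⟨h.inj_grf hm, ?_⟩
    intro l r x y hxy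
    obtain ⟨s, rfl, rfl⟩ := grf_sel hxy
    have h1 := h.sub n l m a s hm
    constructor
    · intro hr
      exact ⟨_, h1, hr⟩
    · rintro ⟨m', hm', hr⟩
      exact ((h.un l _ _ _ hm' h1).rel r).1 hr
  · rintro _ ⟨n, m, a, hm, rfl⟩
    exact Set.finite_range _
  · rintro _ ⟨n, m, a, hm, rfl⟩ x
    obtain ⟨y, hy⟩ := h.fo n m a x hm
    exact ⟨_, ⟨n + 1, _, _, hy, rfl⟩, grf_snoc m a x y, _, mem_grf_snoc m a x y, rfl⟩
  · rintro _ ⟨n, m, a, hm, rfl⟩ y
    obtain ⟨x, hx⟩ := h.ba hm y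
    exact ⟨_, ⟨n + 1, _, _, hx, rfl⟩, grf_snoc m a x y, _, mem_grf_snoc m a x y, rfl⟩

/-- countable models of the axioms are isomorphic to `M` -/
theorem iso_of_ax {A : Type} [(OL L M).Structure A] (h : Ax L M A) [Countable M] [Countable A] :
    letI := oStr L M M
    Nonempty ((OL L M).Equiv M A) := by
  letI : (OL L M).Structure M := oStr L M M
  let PP := {Γ : Set (M × A) // ∃ (n : ℕ) (m : Fin n → M) (a : Fin n → A), Has L m a ∧ Γ = grf m a}
  letI : Encodable (M ⊕ A) := Encodable.ofCountable _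
  have piso : ∀ Γ : PP, PIso (OL L M) Γ.1 := by
    rintro ⟨_, n, m, a, hm, rfl⟩
    refine ⟨h.inj_grf hm, ?_⟩
    intro l r x y hxy
    obtain ⟨s, rfl, rfl⟩ := grf_sel hxy
    obtain ⟨m', rfl⟩ := cls_surj r
    have h1 := h.sub n l m a s hm
    constructor
    · rintro ⟨m'', h2, h3⟩
      exact h1.congr (h3.symm.trans (cls_eq.1 h2))
    · intro hr
      exact ⟨m', rfl, h.un l _ _ _ hr h1⟩
  let D : M ⊕ A → Order.Cofinal PP := fun x =>
    match x with
    | Sum.inl x => ⟨{p | ∃ x', (x, x') ∈ p.1}, by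
        rintro ⟨_, n, m, a, hm, rfl⟩
        obtain ⟨y, hy⟩ := h.fo n m a x hm
        exact ⟨⟨_, n + 1, _, _, hy, rfl⟩, ⟨y, mem_grf_snoc m a x y⟩, grf_snoc m a x y⟩⟩
    | Sum.inr y => ⟨{p | ∃ x, (x, y) ∈ p.1}, by
        rintro ⟨_, n, m, a, hm, rfl⟩
        obtain ⟨x, hx⟩ := h.ba hm y
        exact ⟨⟨_, n + 1, _, _, hx, rfl⟩, ⟨x, mem_grf_snoc m a x y⟩, grf_snoc m a x y⟩⟩
  obtain ⟨m0, hm0⟩ := h.ex 0 Fin.elim0
  let p0 : PP := ⟨grf m0 Fin.elim0, 0, m0, _, hm0, rfl⟩
  let s : ℕ → PP := Order.sequenceOfCofinals p0 D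
  have hs : Monotone s := Order.sequenceOfCofinals.monotone _ _
  let G : Set (M × A) := {a | ∃ n, a ∈ (s n).1}
  have hG : PIso (OL L M) G := by
    constructor
    · rintro a ⟨m, ha⟩ b ⟨n, hb⟩
      have ha' := hs (le_max_left m n) ha
      have hb' := hs (le_max_right m n) hb
      exact (piso (s (max m n))).inj a ha' b hb'
    · intro n r x y hxy
      choose m hm using hxy
      obtain ⟨N, hN⟩ : ∃ N, ∀ i, m i ≤ N :=
        ⟨Finset.univ.sup m, fun i => Finset.le_sup (Finset.mem_univ i)⟩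
      exact (piso (s N)).rel n r x y fun i => hs (hN i) (hm i)
  have ht : ∀ x, ∃ a ∈ G, a.1 = x := by
    intro x
    obtain ⟨x', hx'⟩ := Order.sequenceOfCofinals.encode_mem p0 D (Sum.inl x)
    exact ⟨(x, x'), ⟨_, hx'⟩, rfl⟩
  have ht' : ∀ x, ∃ a ∈ G, a.2 = x := by
    intro y
    obtain ⟨x, hx⟩ := Order.sequenceOfCofinals.encode_mem p0 D (Sum.inr y)
    exact ⟨(x, y), ⟨_, hx⟩, rfl⟩
  obtain ⟨e, -⟩ := hG.exists_equiv ht ht'
  exact ⟨e⟩

end

end Pool.Agent.H94.HI
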