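import Mathlib
import Pool.Agent.H94.HI.Def
import Pool.Agent.H94.HI.Lang

/-!
# The complete sentence
-/

set_option autoImplicit false
set_option linter.unusedSectionVars false
set_option linter.style.haveILetI false

namespace Pool.Agent.H94.HI

open Cardinal FirstOrder FirstOrder.Language InfLogic
open Pool.Agent.H94.HC

section

variable (L : FirstOrder.Language.{0, 0}) (M : Type) [L.Structure M] [Countable M]

/-- the axioms are given by a sentence -/
theorem exists_sentence : ∃ φ : Fm (OL L M) 0, ∀ (A : Type) [(OL L M).Structure A],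
    Models A φ ↔ Ax L M A := by
  have hrel : ∀ {n l : ℕ} (m : Fin l → M) (s : Fin l → Fin n),
      Dfn (fun _ _ v => Has L m (v ∘ s) : Cond (OL L M) n) := fun m s => Dfn.rel (cls L m) s
  have hrel' : ∀ {n : ℕ} (m : Fin n → M), Dfn (fun _ _ v => Has L m v : Cond (OL L M) n) :=
    fun m => hrel m id
  have d1 : Dfn (fun A _ _ => ∀ (n : ℕ) (a : Fin n → A), ∃ m : Fin n → M, Has L m a :
      Cond (OL L M) 0) := Dfn.conj fun n => Dfn.close (Dfn.disj fun m => hrel' m)
  have d2 : Dfn (fun A _ _ => ∀ (n : ℕ) (m m' : Fin n → M) (a : Fin n → A), Has L m a →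
      Has L m' a → TY L m m' : Cond (OL L M) 0) :=
    Dfn.conj fun n => Dfn.conj fun m => Dfn.conj fun m' => Dfn.close
      ((hrel' m).imp ((hrel' m').imp (Dfn.const _)))
  have d3 : Dfn (fun A _ _ => ∀ (n : ℕ) (m : Fin n → M) (a : Fin n → A) (i j : Fin n),
      Has L m a → (m i = m j ↔ a i = a j) : Cond (OL L M) 0) := by
    refine Dfn.conj fun n => Dfn.conj fun m => Dfn.close (Dfn.conj fun i => Dfn.conj fun j =>
      (hrel' m).imp ?_)
    exact (((Dfn.const (m i = m j)).imp (Dfn.eq i j)).and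
      ((Dfn.eq i j).imp (Dfn.const (m i = m j)))).congr fun A _ v => by tauto
  have d4 : Dfn (fun A _ _ => ∀ (n l : ℕ) (m : Fin n → M) (a : Fin n → A) (s : Fin l → Fin n),
      Has L m a → Has L (m ∘ s) (a ∘ s) : Cond (OL L M) 0) :=
    Dfn.conj fun n => Dfn.conj fun l => Dfn.conj fun m => Dfn.close (Dfn.conj fun s =>
      (hrel' m).imp (hrel (m ∘ s) s))
  have d5 : Dfn (fun A _ _ => ∀ (n : ℕ) (m : Fin n → M) (a : Fin n → A) (x : M), Has L m a →
      ∃ y : A, Has L (Fin.snoc m x : Fin (n + 1) → M) (Fin.snoc a y : Fin (n + 1) → A) :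
      Cond (OL L M) 0) :=
    Dfn.conj fun n => Dfn.conj fun m => Dfn.close (Dfn.conj fun x =>
      (hrel' m).imp (Dfn.ex (hrel' (Fin.snoc m x : Fin (n + 1) → M))))
  obtain ⟨φ, hφ⟩ := d1.and (d2.and (d3.and (d4.and d5)))
  refine ⟨φ, fun A _ => (hφ A Fin.elim0).trans ⟨?_, ?_⟩⟩
  · rintro ⟨h1, h2, h3, h4, h5⟩
    exact ⟨h1, h2, h3, h4, h5⟩
  · intro h
    exact ⟨h.ex, h.un, h.eqv, h.sub, h.fo⟩

end

section

variable {L : FirstOrder.Language.{0, 0}} {M : Type} [L.Structure M]

/-- tuples of the same type satisfy the same formulas -/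
theorem holds_iff {A B : Type} [(OL L M).Structure A] [(OL L M).Structure B] (hA : Ax L M A)
    (hB : Ax L M B) {n : ℕ} (φ : Fm (OL L M) n) : ∀ (v : Fin n → A) (w : Fin n → B)
    (m : Fin n → M), Has L m v → Has L m w → (Holds A φ v ↔ Holds B φ w) := by
  have hvar : ∀ {k : ℕ} (t : (OL L M).Term (Fin k)), ∃ i, t = Term.var i := by
    intro k t
    cases t with
    | var i => exact ⟨i, rfl⟩
    | func f _ => exact Empty.elim f
  have hrelm : ∀ {C : Type} [(OL L M).Structure C], Ax L M C → ∀ {k l : ℕ} (R : (OL L M).Relations l)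
      (s : Fin l → Fin k) (m : Fin k → M) (v : Fin k → C), Has L m v →
      (Structure.RelMap R (v ∘ s) ↔ R = cls L (m ∘ s)) := by
    intro C _ hC k l R s m v hm
    have h1 := hC.sub _ _ m v s hm
    obtain ⟨m', rfl⟩ := cls_surj R
    constructor
    · intro h
      exact cls_eq.2 (hC.un _ _ _ _ h h1)
    · intro h
      have h2 : Has L m' (v ∘ s) := h1.congr (cls_eq.1 h).symm
      exact h2
  induction φ with
  | eq t s =>
    intro v w m hv hw
    obtain ⟨i, rfl⟩ := hvar t
    obtain ⟨j, rfl⟩ := hvar s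
    exact (hA.eqv _ _ _ i j hv).symm.trans (hB.eqv _ _ _ i j hw)
  | rel R t =>
    intro v w m hv hw
    choose s hs using fun i => hvar (t i)
    have ht : t = fun i => Term.var (s i) := funext hs
    subst ht
    exact (hrelm hA R s m v hv).trans (hrelm hB R s m w hw).symm
  | neg φ ih =>
    intro v w m hv hw
    exact not_congr (ih v w m hv hw)
  | conj φ ih =>
    intro v w m hv hw
    exact forall_congr' fun i => ih i v w m hv hw
  | all φ ih =>
    intro v w m hv hw
    constructor
    · intro h b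
      obtain ⟨x, hx⟩ := hB.ba hw b
      obtain ⟨a, ha⟩ := hA.fo _ m v x hv
      exact (ih _ _ _ ha hx).1 (h a)
    · intro h a
      obtain ⟨x, hx⟩ := hA.ba hv a
      obtain ⟨b, hb⟩ := hB.fo _ m w x hw
      exact (ih _ _ _ hx hb).2 (h b)

/-- the sentence is complete -/
theorem complete_of {φ : Fm (OL L M) 0} (hφ : ∀ (A : Type) [(OL L M).Structure A],
    Models A φ ↔ Ax L M A) (hM : Nonempty M) (hm : @Ax L M _ M (oStr L M M)) : Complete φ := by
  refine ⟨⟨M, oStr L M M, hM, (@hφ M (oStr L M M)).2 hm⟩, ?_⟩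
  intro ψ
  have key : ∀ (A : Type) [(OL L M).Structure A], Models A φ →
      (Models A ψ ↔ @Models (OL L M) M (oStr L M M) ψ) := by
    intro A _ hA
    letI : (OL L M).Structure M := oStr L M M
    have hA' := (hφ A).1 hA
    obtain ⟨m, hm'⟩ := hA'.ex 0 Fin.elim0
    have h1 : Has L m (Fin.elim0 : Fin 0 → M) := by
      have := has_self (L := L) m
      rwa [Subsingleton.elim (Fin.elim0 : Fin 0 → M) m]
    exact holds_iff hA' hm ψ _ _ m hm' h1
  by_cases h : @Models (OL L M) M (oStr L M M) ψ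
  · left
    intro A _ _ hA
    exact (key A hA).2 h
  · right
    intro A _ _ hA h'
    exact h ((key A hA).1 h')

end

end Pool.Agent.H94.HI
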