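import Mathlib
import Pool.Agent.H94.HI.Sen

/-!
# Characterizability and homogeneous characterizability from countable structures
-/

set_option autoImplicit false
set_option linter.unusedSectionVars false
set_option linter.style.haveILetI false

namespace Pool.Agent.H94.HI

open Cardinal FirstOrder FirstOrder.Language InfLogic
open Pool.Agent.H94.HC

theorem card_OL (L : FirstOrder.Language.{0, 0}) (M : Type) [L.Structure M] [Countable M] :
    (OL L M).card ≤ ℵ₀ := by
  have h0 : ∀ n, Countable ((OL L M).Relations n) := fun n =>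
    (Quotient.mk_surjective (s := clsSetoid L M n)).countable
  have h1 : Countable (Σ l, (OL L M).Relations l) := inferInstance
  have h2 : Countable (Σ l, (OL L M).Functions l) := by
    have : IsEmpty (Σ l, (OL L M).Functions l) := ⟨fun x => Empty.elim x.2⟩
    infer_instance
  rw [FirstOrder.Language.card, Cardinal.mk_le_aleph0_iff]
  exact inferInstanceAs (Countable ((Σ l, (OL L M).Functions l) ⊕ (Σ l, (OL L M).Relations l)))

/-- complete homogeneity is invariant under isomorphism -/
theorem ch_of_equiv {L : FirstOrder.Language.{0, 0}} {M A : Type} [L.Structure M] [L.Structure A]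
    {P : L.Relations 1} (f : L.Equiv M A) (h : CompletelyHomogeneous M P) :
    CompletelyHomogeneous A P := by
  have hf : ∀ x : M, Structure.RelMap P ![x] ↔ Structure.RelMap P ![f x] := by
    intro x
    have h1 := f.map_rel P ![x]
    have h2 : f ∘ ![x] = ![f x] := by
      funext i
      have : i = 0 := Subsingleton.elim _ _
      subst this
      rfl
    rw [h2] at h1
    exact h1.symm
  let F : {x : M // Structure.RelMap P ![x]} ≃ {a : A // Structure.RelMap P ![a]} :=
    f.toEquiv.subtypeEquiv hf
  have hF : ∀ x, (F x).1 = f x.1 := fun x => rfl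
  obtain ⟨h1, h2⟩ := h
  refine ⟨?_, ?_⟩
  · rw [← Set.infinite_coe_iff] at h1 ⊢
    haveI : Infinite {x : M // Structure.RelMap P ![x]} := h1
    exact F.symm.infinite_iff.2 this
  · intro σ
    obtain ⟨e, he⟩ := h2 (F.trans (σ.trans F.symm))
    refine ⟨f.comp (e.comp f.symm), fun a => ?_⟩
    obtain ⟨x, rfl⟩ := F.surjective a
    change f (e (f.symm (f x.1))) = _
    rw [FirstOrder.Language.Equiv.symm_apply_apply, he x]
    change f (F.symm (σ (F x))).1 = _
    rw [← hF, Equiv.apply_symm_apply]

section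

variable {L : FirstOrder.Language.{0, 0}} [L.IsRelational] {M : Type} [L.Structure M] [Countable M]
  [Nonempty M] {κ : Cardinal.{0}}

/-- characterizable -/
theorem ch_of (h0 : ℵ₀ ≤ κ)
    (h1 : ∀ μ : Cardinal.{0}, ℵ₀ ≤ μ → μ ≤ κ → ∃ (A : Type) (_ : L.Structure A), #A = μ ∧
        BFc L M A)
    (h2 : ∀ (A : Type) (_ : L.Structure A), BFc L M A → #A ≤ κ) : Ch κ := by
  obtain ⟨φ, hφ⟩ := exists_sentence L M
  refine ⟨h0, OL L M, φ, card_OL L M, complete_of hφ inferInstance ax_self, ?_, ?_⟩
  · intro μ hμ hμ'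
    obtain ⟨A, iA, hA, hbf⟩ := h1 μ hμ hμ'
    exact ⟨A, oStr L M A, hA, (@hφ A (oStr L M A)).2 (ax_of_bfc hbf)⟩
  · intro A iA hA heq
    have h3 := h2 A (lStr L M A) (bfc_of_ax ((hφ A).1 hA))
    rw [heq] at h3
    exact absurd h3 (not_le.mpr (Order.lt_succ κ))

/-- homogeneously characterizable -/
theorem homCh_of (P : L.Relations 1)
    (h1 : Set.Infinite {x : M | Structure.RelMap P ![x]})
    (h2 : ∀ σ : _root_.Equiv.Perm {x : M // Structure.RelMap P ![x]},
      ∃ e : L.Equiv M M, ∀ x : {x : M // Structure.RelMap P ![x]}, e x.1 = (σ x).1)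
    (h3 : ∀ (A : Type) (_ : L.Structure A), BFc L M A → #A ≤ κ)
    (h4 : ∃ (A : Type) (_ : L.Structure A), BFc L M A ∧
      #{a : A // Structure.RelMap P ![a]} = κ) : HomCh κ := by
  classical
  obtain ⟨φ, hφ⟩ := exists_sentence L M
  obtain ⟨x0, hx0⟩ := h1.nonempty
  change Structure.RelMap P ![x0] at hx0
  have hP : ∀ y : M, TY L ![x0] ![y] ↔ Structure.RelMap P ![y] := by
    intro y
    constructor
    · intro h
      exact (h.rel P).1 hx0
    · intro hy
      obtain ⟨e, he⟩ := h2 (_root_.Equiv.swap ⟨x0, hx0⟩ ⟨y, hy⟩)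
      have h5 := he ⟨x0, hx0⟩
      rw [_root_.Equiv.swap_apply_left] at h5
      have h6 := TY.of_equiv e ![x0]
      have h7 : (fun i => e (![x0] i)) = ![y] := by
        funext i
        have : i = 0 := Subsingleton.elim _ _
        subst this
        exact h5
      rwa [h7] at h6
  have hM : @CompletelyHomogeneous (OL L M) M (oStr L M M) (cls L ![x0]) := by
    letI : (OL L M).Structure M := oStr L M M
    have hk : ∀ x : M, Structure.RelMap (cls L ![x0]) ![x] ↔ Structure.RelMap P ![x] := by
      intro x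
      rw [← hP]
      constructor
      · rintro ⟨m, h5, h6⟩
        exact (cls_eq.1 h5).symm.trans h6
      · intro h
        exact ⟨_, rfl, h⟩
    refine ⟨?_, ?_⟩
    · have : {x : M | Structure.RelMap (cls L ![x0]) ![x]} = {x : M | Structure.RelMap P ![x]} :=
        Set.ext hk
      rw [this]
      exact h1
    · intro σ
      let G : {x : M // Structure.RelMap (cls L ![x0]) ![x]} ≃ {x : M // Structure.RelMap P ![x]} :=
        _root_.Equiv.subtypeEquivRight hk
      obtain ⟨e, he⟩ := h2 (G.symm.trans (σ.trans G))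
      refine ⟨⟨e.toEquiv, fun f => Empty.elim f, ?_⟩, ?_⟩
      · intro n O x
        have h5 : TY L x (e ∘ x) := TY.of_equiv e x
        constructor
        · rintro ⟨m, h6, h7⟩
          exact ⟨m, h6, h7.trans h5.symm⟩
        · rintro ⟨m, h6, h7⟩
          exact ⟨m, h6, h7.trans h5⟩
      · intro x
        exact he (G x)
  refine ⟨OL L M, φ, cls L ![x0], card_OL L M, complete_of hφ inferInstance ax_self, ?_, ?_, ?_, ?_⟩
  · intro A iA hA
    exact h3 A (lStr L M A) (bfc_of_ax ((hφ A).1 hA))
  · exact ⟨M, oStr L M M, inferInstance, (@hφ M (oStr L M M)).2 ax_self⟩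
  · intro A iA cA hA
    letI : (OL L M).Structure M := oStr L M M
    obtain ⟨f⟩ := iso_of_ax ((hφ A).1 hA)
    exact ch_of_equiv f hM
  · obtain ⟨A, iA, hbf, hA⟩ := h4
    letI : (OL L M).Structure A := oStr L M A
    have hax := ax_of_bfc hbf
    refine ⟨A, oStr L M A, (hφ A).2 hax, ?_⟩
    rw [← hA]
    refine Cardinal.mk_congr (_root_.Equiv.subtypeEquivRight fun a => ?_)
    constructor
    · rintro ⟨m, h5, h6⟩
      exact (h6.rel P).1 (((cls_eq.1 h5).symm.rel P).1 hx0)
    · intro ha
      obtain ⟨m, m', h5, h6⟩ := hax.ex 1 ![a]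
      have h7 : TY L m' ![a] := h6
      have h8 : Structure.RelMap P m' := (h7.rel P).2 ha
      have h9 : m' = ![m' 0] := by
        funext i
        have : i = 0 := Subsingleton.elim _ _
        subst this
        rfl
      rw [h9] at h8 h7
      exact ⟨_, rfl, ((hP _).2 h8).trans h7⟩

end

end Pool.Agent.H94.HI
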