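import Mathlib
import Pool.Agent.H94.HI.Tra
import Pool.Agent.H94.HC.Final

/-!
# `ℶ_ω` is homogeneously characterizable
-/

set_option autoImplicit false
set_option linter.unusedSectionVars false
set_option linter.style.haveILetI false

namespace Pool.Agent.H94.HI

open Cardinal FirstOrder FirstOrder.Language InfLogic
open Pool.Agent.H94.HC

theorem mk_VT_eq (n : ℕ) : #(VT n) = Cardinal.beth ((n + 1 : ℕ) : Ordinal) := by
  induction n with
  | zero =>
    rw [mk_VT_zero]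
    have h1 := Cardinal.beth_add_one 0
    rw [Cardinal.beth_zero] at h1
    rw [← h1]
    simp
  | succ n ih =>
    rw [mk_VT_succ, ih, ← Cardinal.beth_add_one]
    norm_cast

theorem kap_eq : kap = Cardinal.beth Ordinal.omega0 := by
  apply le_antisymm
  · rw [kap, Cardinal.mk_sigma]
    have h1 : ∀ n : ℕ, #(VT n) ≤ Cardinal.beth Ordinal.omega0 := by
      intro n
      rw [mk_VT_eq, Cardinal.beth_le_beth]
      exact (Ordinal.natCast_lt_omega0 _).le
    refine (Cardinal.sum_le_sum _ (fun _ : ℕ => Cardinal.beth Ordinal.omega0) h1).trans ?_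
    rw [Cardinal.sum_const, Cardinal.lift_id, Cardinal.lift_id, Cardinal.mk_nat]
    have h2 : ℵ₀ ≤ Cardinal.beth Ordinal.omega0 := (aleph0_le_VT 0).trans (h1 0)
    exact Cardinal.mul_le_of_le h2 h2 le_rfl
  · rw [Cardinal.beth_limit Ordinal.isSuccLimit_omega0]
    refine ciSup_le' ?_
    rintro ⟨a, ha⟩
    obtain ⟨n, rfl⟩ := Ordinal.lt_omega0.1 ha
    refine le_trans ?_ (VT_le_kap n)
    rw [mk_VT_eq, Cardinal.beth_le_beth]
    show (n : Ordinal) ≤ ((n + 1 : ℕ) : Ordinal)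
    exact_mod_cast Nat.le_succ n

theorem main : Ch (Cardinal.beth Ordinal.omega0) ∧ HomCh (Cardinal.beth Ordinal.omega0) ∧
    (Cardinal.beth.{0} Ordinal.omega0).ord.cof = ℵ₀ := by
  rw [← kap_eq]
  obtain ⟨W, iW, gW, hW⟩ := exists_good BigV le_rfl (μ := ℵ₀) aleph0_le_kap
  have infW : Infinite W := Cardinal.infinite_iff.mpr hW.ge
  have cW : Countable W := Cardinal.mk_le_aleph0_iff.mp hW.le
  have hQ : #ℕ ≤ #W := by rw [hW, Cardinal.mk_nat]
  have hM : Countable (Dom W ℕ hQ) := by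
    rw [← Cardinal.mk_le_aleph0_iff, mk_Dom, hW]
  have hN : Nonempty (Dom W ℕ hQ) := ⟨Sum.inr (Sum.inr 0)⟩
  have hup : ∀ (A : Type) (_ : HL.Structure A), BFc HL (Dom W ℕ hQ) A → #A ≤ kap :=
    fun A _ h => (facts_of_bfc h).card_le
  refine ⟨ch_of (L := HL) (M := Dom W ℕ hQ) aleph0_le_kap ?_ hup,
    homCh_of (L := HL) (M := Dom W ℕ hQ) HRel.q ?_ ?_ hup ?_, cof_kap⟩
  · intro μ h1 h2
    obtain ⟨W', iW', gW', hW'⟩ := exists_good BigV h1 h2
    have infW' : Infinite W' := Cardinal.infinite_iff.mpr (h1.trans hW'.ge)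
    have hQ' : #ℕ ≤ #W' := by rw [hW', Cardinal.mk_nat]; exact h1
    exact ⟨Dom W' ℕ hQ', inferInstance, by rw [mk_Dom, hW'], bfc hQ hQ'⟩
  · rw [← Set.infinite_coe_iff]
    exact Infinite.of_injective (eqQ (hQ := hQ)).symm (eqQ (hQ := hQ)).symm.injective
  · intro σ
    obtain ⟨e, he⟩ := homog hQ ((eqQ (hQ := hQ)).symm.trans (σ.trans (eqQ (hQ := hQ))))
    refine ⟨e, ?_⟩
    intro x
    obtain ⟨q, rfl⟩ := (eqQ (hQ := hQ)).symm.surjective x
    have h1 := he q
    rw [eqQ_symm, h1]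
    show ((eqQ (hQ := hQ)).symm (((eqQ (hQ := hQ)).symm.trans (σ.trans (eqQ (hQ := hQ)))) q) :
      Dom W ℕ hQ) = _
    simp
  · have infB : Infinite BigV := Cardinal.infinite_iff.mpr aleph0_le_kap
    refine ⟨Dom BigV BigV le_rfl, inferInstance, bfc hQ le_rfl, ?_⟩
    rw [Cardinal.mk_congr (eqQ (V := BigV) (Q := BigV) (hQ := le_rfl))]
    rfl

end Pool.Agent.H94.HI
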